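import Pool.Agent.Lib.MP_09c31c_an.Limit

/-!
A locally univalent function with absolutely convergent power series and `f 0 = 0` whose boundary
curve covers a disc.
-/

set_option autoImplicit false

namespace Pool.Agent.Results.MP_09c31c_an.CoversDisc

open Metric MeasureTheory

theorem result : ∃ (a : ℕ → ℂ) (f : ℂ → ℂ), a 0 = 0 ∧ Summable (fun n => ‖a n‖) ∧
    (∀ z : ℂ, ‖z‖ ≤ 1 → HasSum (fun n => a n * z ^ n) (f z)) ∧
    AnalyticOnNhd ℂ f (ball 0 1) ∧ (∀ z : ℂ, ‖z‖ < 1 → deriv f z ≠ 0) ∧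
    (∃ (c : ℂ) (r : ℝ), 0 < r ∧ ball c r ⊆ f '' sphere 0 1) ∧ 0 < volume (f '' sphere 0 1) := by
  obtain ⟨a, h1, h2, h3⟩ := Pool.Agent.Lib.MP_09c31c_an.main
  have h4 : ∀ (n : ℕ) (z : ℂ), ‖z‖ ≤ 1 → ‖a n * z ^ n‖ ≤ ‖a n‖ := fun n z hz => by
    rw [norm_mul, norm_pow]
    exact mul_le_of_le_one_right (norm_nonneg _) (pow_le_one₀ (norm_nonneg _) hz)
  have h5 : ball (-a 0) (1 / 2) ⊆ (fun w : ℂ => ∑' n, a n * w ^ n - a 0) '' sphere 0 1 := by
    intro y hy
    obtain ⟨w, hw, h⟩ := h3 (show y + a 0 ∈ closedBall (0 : ℂ) (1 / 2) by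
      rw [mem_ball, dist_eq_norm, sub_neg_eq_add] at hy
      exact mem_closedBall_zero_iff.2 hy.le)
    exact ⟨w, hw, by simp only at h ⊢; rw [h, add_sub_cancel_right]⟩
  refine ⟨fun n => a n - if n = 0 then a 0 else 0, fun w => ∑' n, a n * w ^ n - a 0, by simp,
    h1.of_nonneg_of_le (fun _ => norm_nonneg _) (fun n => ?_), fun z hz => ?_, ?_,
    fun z hz => ?_, ⟨_, _, by norm_num, h5⟩,
    (measure_ball_pos volume _ (by norm_num)).trans_le (measure_mono h5)⟩
  · by_cases h : n = 0 <;> simp [h]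
  · have h6 := (Summable.of_norm_bounded h1 fun n => h4 n z hz).hasSum.sub (hasSum_ite_eq 0 (a 0))
    refine h6.congr_fun fun n => ?_
    split_ifs with h <;> simp [h]
  · refine DifferentiableOn.analyticOnNhd (DifferentiableOn.sub_const ?_ _) isOpen_ball
    exact Complex.differentiableOn_tsum_of_summable_norm h1 (fun n => by fun_prop) isOpen_ball
      fun n w hw => h4 n w (mem_ball_zero_iff.1 hw).le
  · rw [deriv_sub_const]
    exact h2 z hz

end Pool.Agent.Results.MP_09c31c_an.CoversDisc
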